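import Pool.Agent.P8H39.TI.Stm4

set_option autoImplicit false

/-!
# Project TI, fourth part, package FIN4
-/

namespace Pool.Agent.P8H53.TI

open Pool.Agent.P8H39.TI

theorem t_FIN4 (hF2 : S_FIN2) (hT3 : S_TH3) (hP : S_PW) : S_FIN4 := by
  refine ⟨?_, hF2.2⟩
  intro n k t r p F T ht hk hr hrk hn hF hT hp hc
  rcases hc with h | h | h
  · exact hF2.1 n k t r p F T ht hk hr hrk hn hF hT (Or.inl h)
  · exact hF2.1 n k t r p F T ht hk hr hrk hn hF hT (Or.inr ⟨h, hp⟩)
  · by_cases hrt : r ≤ t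
    · exact hF2.1 n k t r p F T ht hk hr hrk hn hF hT (Or.inr ⟨hrt, hp⟩)
    · unfold ell
      exact hP n (slice n r) (fun R => (deg F R : ℝ)) (fun R => (deg (star k T) R : ℝ)) p hp
        (fun R _ => Nat.cast_nonneg _) (fun R _ => Nat.cast_nonneg _)
        (fun c hc => hT3 n k t r c F T ht (by omega) (by omega) h hF hT hc)

end Pool.Agent.P8H53.TI
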